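import Pool.Agent.helper25.TW.Spec

/-! # Row DET of the project TWO (MP_f42afa_pr) -/

set_option autoImplicit false

namespace TP.TW

open DP MeasureTheory Finset

open Classical in
theorem DET (rc : DP.RC_stmt) : DET_stmt := by
  intro o β k a b d e K S T hcut
  obtain ⟨W, u, v, hW, hcon, hends, B, hBK, hB⟩ := hcut
  have key : ∀ τ ∈ ({τ ∈ T | crs o (col β) k (til (shf τ S)) a b d e} : Finset (ℤ × ℤ)),
      ∃ p : V × V, p ∈ B ×ˢ S ∧ p.1 = (p.2.1 + τ.1, p.2.2 + τ.2) := by
    intro τ hτ
    rw [Finset.mem_filter] at hτ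
    obtain ⟨-, u', v', hends', hconn⟩ := hτ
    have hmeet : (W ∩ {w | w ∈ rect a b d e ∩ til (shf τ S) ∧ col β w = k}).Nonempty := by
      cases o with
      | true =>
        simp only [if_true] at hends hends'
        exact rc a b d e W _ hW (fun w hw => hw.1.1) u v u' v' hends.1 hends.2 hends'.1 hends'.2
          hcon hconn
      | false =>
        simp only [Bool.false_eq_true, if_false] at hends hends'
        rw [Set.inter_comm]
        exact rc a b d e _ W (fun w hw => hw.1.1) hW u' v' u v hends'.1 hends'.2 hends.1 hends.2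
          hconn hcon
    obtain ⟨z, hz1, hz2, hz3⟩ := hmeet
    have h1 : br z ∈ B := hB z hz1 hz3
    have h2 : br z ∈ shf τ S := hz2.2
    unfold shf at h2
    rw [Finset.mem_image] at h2
    obtain ⟨s, hs, hse⟩ := h2
    exact ⟨(br z, s), Finset.mem_product.2 ⟨h1, hs⟩, hse.symm⟩
  choose! f hf1 hf2 using key
  calc #{τ ∈ T | crs o (col β) k (til (shf τ S)) a b d e}
      ≤ #(B ×ˢ S) := by
        refine Finset.card_le_card_of_injOn f (fun τ hτ => hf1 τ hτ) ?_
        intro τ hτ τ' hτ' h
        have e1 := hf2 τ hτ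
        have e2 := hf2 τ' hτ'
        rw [h] at e1
        rw [e1] at e2
        have e3 := congrArg Prod.fst e2
        have e4 := congrArg Prod.snd e2
        simp only at e3 e4
        exact Prod.ext (by omega) (by omega)
    _ = #B * #S := Finset.card_product B S
    _ ≤ K * #S := Nat.mul_le_mul_right _ hBK

end TP.TW
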